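import Mathlib

open Filter Topology Set

namespace Pool.Agent.Results.MP_256cd6_an.Gap

variable {k : ℕ} (d : ℕ) (M : Fin k → Fin k → Bool)

/-- the hom Markov tree-shift of the binary matrix `M` on the `d`-tree -/
def TS : Set (List (Fin d) → Fin k) := {t | ∀ g i, M (t g) (t (g ++ [i])) = true}

/-- restriction to the words of length at most `n` -/
def res (n : ℕ) (t : List (Fin d) → Fin k) : {g : List (Fin d) // g.length ≤ n} → Fin k := fun g => t g

/-- number of patterns on `Δ n` -/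
noncomputable def p (n : ℕ) : ℕ := (res d n '' TS d M).ncard

/-- the set of entropies of nonempty hom Markov tree-shifts -/
def Ent : Set ℝ := {h | ∃ (k : ℕ) (M : Fin k → Fin k → Bool), (TS d M).Nonempty ∧
  Tendsto (fun n => Real.log (p d M n) / (((d : ℝ) ^ (n + 1) - 1) / (d - 1))) atTop (𝓝 h)}

instance (n : ℕ) : Finite {g : List (Fin d) // g.length ≤ n} := List.finite_length_le _ n

noncomputable def q (v : Fin k) (n : ℕ) : ℕ := (res d n '' {t ∈ TS d M | t [] = v}).ncard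
noncomputable def s (v : Fin k) (n : ℕ) : ℕ := ∑ u, if M v u then q d M u n else 0

lemma split (n : ℕ) (P : Fin k → Bool) :
    (res d n '' {t ∈ TS d M | P (t [])}).ncard = ∑ u, if P u then q d M u n else 0 := by
  rw [show res d n '' {t ∈ TS d M | P (t [])} = ⋃ u, res d n '' {t ∈ TS d M | P u ∧ t [] = u} by
    rw [← image_iUnion]; congr 1; ext; simp [and_comm], ncard_iUnion_of_finite (fun _ => toFinite _),
    finsum_eq_sum_of_fintype]
  · exact Finset.sum_congr rfl fun u _ => by split_ifs with h <;> simp [h, q]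
  · rintro u w h
    refine disjoint_left.2 ?_
    rintro _ ⟨t, a, rfl⟩ ⟨t', b, e⟩
    exact h (a.2.2.symm.trans ((congrFun e ⟨[], by simp⟩).symm.trans b.2.2))

lemma p_eq (n : ℕ) : p d M n = ∑ u, q d M u n := by simpa [p] using split d M n fun _ => true

lemma q_succ (v : Fin k) (n : ℕ) : q d M v (n + 1) = s d M v n ^ d := by
  rw [s, ← split d M n (M v), q]
  set S := res d n '' {t ∈ TS d M | M v (t [])}
  have : (univ.pi fun _ : Fin d => S).ncard = S.ncard ^ d := by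
    rw [← Nat.card_coe_set_eq, Nat.card_congr (Equiv.Set.univPi _), Nat.card_pi]; simp
  rw [← this]
  refine ncard_congr (fun x _ i g => x ⟨i :: g, by simpa using g.2⟩) ?_ ?_ ?_
  · rintro _ ⟨t, ⟨a, rfl⟩, rfl⟩ i -
    exact ⟨fun g => t (i :: g), ⟨fun g j => a (i :: g) j, a [] i⟩, rfl⟩
  · rintro _ _ ⟨t, ⟨-, a⟩, rfl⟩ ⟨t', ⟨-, b⟩, rfl⟩ e
    funext ⟨g, hg⟩
    cases g with
    | nil => exact a.trans b.symm
    | cons i g => exact congrFun (congrFun e i) ⟨g, by simpa using hg⟩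
  · intro x hx
    choose t ht e using fun i => hx i trivial
    refine ⟨res d (n + 1) fun g => match g with | [] => v | i :: g => t i g, ⟨_, ⟨fun g i => ?_, rfl⟩, rfl⟩, funext e⟩
    cases g with
    | nil => exact (ht i).2
    | cons j g => exact (ht j).1 g i

lemma q_zero (v : Fin k) : q d M v 0 ≤ 1 := (ncard_le_one (toFinite _)).2 <| by
  rintro _ ⟨t, ⟨-, a⟩, rfl⟩ _ ⟨t', ⟨-, b⟩, rfl⟩
  funext ⟨g, hg⟩
  obtain rfl := List.length_eq_zero_iff.1 (Nat.le_zero.1 hg)
  exact a.trans b.symm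

lemma q_pos (v : Fin k) (m n : ℕ) (h : 0 < q d M v m) : 0 < q d M v n :=
  (ncard_pos (toFinite _)).2 (((ncard_pos (toFinite _)).1 h).of_image.image _)

lemma core : ∃ E : Set (Fin k), (∀ v ∈ E, ∀ u, M v u → u ∈ E) ∧ (∀ v ∈ E, ∃ u ∈ E, M u v) ∧
    ∃ m, ∀ n (Y : ℕ), 2 ≤ d → (∀ v ∈ E, q d M v n ≤ Y) → p d M (n + m) ≤ (k ^ 2 * Y) ^ d ^ m := by
  let R : ℕ → Set (Fin k) := fun m => m.rec univ fun _ A => {v | ∃ u ∈ A, M u v}
  have a : ∀ m, R (m + 1) ⊆ R m := fun m => by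
    induction m with
    | zero => exact subset_univ _
    | succ m ih => exact fun v ⟨u, a, b⟩ => ⟨u, ih a, b⟩
  obtain ⟨m, hm⟩ := exists_minimalFor_of_wellFoundedLT (fun _ => True) R ⟨0, trivial⟩
  have e := hm.2 (j := m + 1) trivial (a m)
  refine ⟨R m, fun v hv u h => a m ⟨v, hv, h⟩, fun v hv => e hv, m, fun n Y hd h => ?_⟩
  have : ∀ j i, i + j = m → ∀ v ∈ R i, k ^ 2 * q d M v (n + j) ≤ (k ^ 2 * Y) ^ d ^ j := fun j => by
    induction j with
    | zero => rintro i rfl v hv; simpa using Nat.mul_le_mul_left _ (h v hv)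
    | succ j ih =>
      intro i hi v hv
      have k0 : 0 < k := v.pos
      have : k * s d M v (n + j) ≤ (k ^ 2 * Y) ^ d ^ j := by
        refine Nat.le_of_mul_le_mul_left ?_ k0
        rw [← mul_assoc, ← sq, s, Finset.mul_sum]
        refine (Finset.sum_le_card_nsmul _ _ ((k ^ 2 * Y) ^ d ^ j) fun u _ => ?_).trans (by simp)
        split_ifs with e
        exacts [ih (i + 1) (by omega) u ⟨v, hv, e⟩, by simp]
      rw [← add_assoc, q_succ, pow_succ d, pow_mul]
      exact le_trans (by rw [mul_pow]; gcongr) (Nat.pow_le_pow_left this d)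
  rw [p_eq]
  rcases k.eq_zero_or_pos with rfl | k0
  · simp
  refine Nat.le_of_mul_le_mul_left ?_ k0
  rw [Finset.mul_sum]
  refine (Finset.sum_le_card_nsmul _ _ ((k ^ 2 * Y) ^ d ^ m) fun u _ => ?_).trans (by simp)
  exact le_trans (by gcongr; nlinarith) (this m 0 (by simp) u trivial)

/-- the abstract branching structure when all live out-degrees are at most two -/
def Br {V : Type} (d : ℕ) (E : Set V) (s : V → ℕ → ℕ) : Prop := ∀ v ∈ E,
  (∃ u ∈ E, s v 0 ≤ 1 ∧ ∀ n, s v (n + 1) = s u n ^ d) ∨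
  ∃ u ∈ E, ∃ w ∈ E, s v 0 = 2 ∧ 1 ≤ s u 0 ∧ 1 ≤ s w 0 ∧ ∀ n, s v (n + 1) = s u n ^ d + s w n ^ d

lemma br (hd : 2 ≤ d) {E : Set (Fin k)} (c : ∀ v ∈ E, ∀ u, M v u → u ∈ E) (h : ∀ v ∈ E, s d M v 0 ≤ 2) :
    Br d E (s d M) := fun v hv => by
  let L := Finset.univ.filter fun u => M v u ∧ 0 < q d M u 0
  have e : ∀ n, s d M v n = ∑ u ∈ L, q d M u n := fun n => by
    rw [s, Finset.sum_filter]
    refine Finset.sum_congr rfl fun u _ => ?_
    have := q_pos d M u n 0
    split_ifs <;> simp_all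
  have m : ∀ u ∈ L, u ∈ E ∧ q d M u 0 = 1 ∧ 1 ≤ s d M u 0 := fun u hu => by
    obtain ⟨-, a, b⟩ := Finset.mem_filter.1 hu
    have := q_pos d M u 0 1 b
    rw [q_succ] at this
    exact ⟨c v hv u a, le_antisymm (q_zero d M u) b, Nat.pos_of_ne_zero fun e => by simp [e, show d ≠ 0 by omega] at this⟩
  have l : s d M v 0 = L.card := by rw [e, Finset.sum_congr rfl fun u hu => (m u hu).2.1]; simp
  have := h v hv
  rcases (by omega : L.card = 0 ∨ L.card = 1 ∨ L.card = 2) with g | g | g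
  · rw [Finset.card_eq_zero] at g
    exact .inl ⟨v, hv, by simp [l, g], fun n => by simp [e, g, show d ≠ 0 by omega]⟩
  · obtain ⟨u, g'⟩ := Finset.card_eq_one.1 g
    exact .inl ⟨u, (m u (by simp [g'])).1, by omega, fun n => by simp [e, g', q_succ]⟩
  · obtain ⟨u, w, ne, g'⟩ := Finset.card_eq_two.1 g
    exact .inr ⟨u, (m u (by simp [g'])).1, w, (m w (by simp [g'])).1, by omega, (m u (by simp [g'])).2.2,
      (m w (by simp [g'])).2.2, fun n => by simp [e, g', q_succ, ne]⟩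

lemma big {V : Type} {d : ℕ} {E : Set V} {s : V → ℕ → ℕ} (hd : 3 ≤ d) (h : Br d E s) (h1 : ∀ v ∈ E, s v 1 < 2 ^ (d + 1))
    (n : ℕ) : ∀ v ∈ E, 3 / 2 * (s v (n + 1) : ℝ) ≤ (3 / 2 * (2 ^ d + 1)) ^ d ^ n := by
  induction n with
  | zero =>
    have a : ∀ u ∈ E, s u 0 ^ d ≤ 1 ∨ s u 0 ^ d = 2 ^ d := fun u hu =>
      (h u hu).imp (fun ⟨_, _, e, _⟩ => pow_le_one₀ (by simp) e) fun ⟨_, _, _, _, e, _⟩ => by rw [e]
    intro v hv
    have := h1 v hv
    have : s v 1 ≤ 2 ^ d + 1 := by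
      have := Nat.one_le_two_pow (n := d)
      rcases h v hv with ⟨u, hu, -, e⟩ | ⟨u, hu, w, hw, -, -, -, e⟩
      · have := a u hu; have : s v 1 = _ := e 0; omega
      · have := a u hu; have := a w hw; have : s v 1 = _ := e 0; omega
    simpa using mod_cast this
  | succ n ih =>
    intro v hv
    have a : ∀ u ∈ E, 3 * (s u (n + 1) : ℝ) ^ d ≤ (3 / 2 * (2 ^ d + 1)) ^ d ^ (n + 1) := fun u hu => by
      rw [pow_succ, pow_mul]
      refine le_trans ?_ (pow_le_pow_left₀ (by positivity) (ih u hu) d)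
      rw [mul_pow]; gcongr
      exact le_trans (by norm_num) (pow_le_pow_right₀ (by norm_num) hd)
    rcases h v hv with ⟨u, hu, -, e⟩ | ⟨u, hu, w, hw, -, -, -, e⟩ <;> rw [e] <;> push_cast
    · linarith [a u hu, show 0 ≤ (s u (n + 1) : ℝ) ^ d by positivity]
    · linarith [a u hu, a w hw]

lemma two {V : Type} {E : Set V} {s : V → ℕ → ℕ} (h : Br 2 E s) (h1 : ∀ v ∈ E, s v 1 < 5) (h2 : ∀ v ∈ E, s v 2 < 23)
    (h3 : ∀ v ∈ E, s v 3 < 512) (n : ℕ) : ∀ v ∈ E, 1.3 * (s v (n + 3) : ℝ) ≤ 477 ^ 2 ^ n ∧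
      (s v 0 ≤ 1 → 1.65 * (s v (n + 3) : ℝ) ≤ 477 ^ 2 ^ n) := by
  have h' : ∀ v ∈ E, (∃ u ∈ E, s v 0 ≤ 1 ∧ ∀ n, s v (n + 1) = s u n ^ 2) ∨ ∃ u ∈ E, ∃ w ∈ E, s v 0 = 2 ∧
      s u 0 = 1 ∧ s w 0 = 1 ∧ ∀ n, s v (n + 1) = s u n ^ 2 + s w n ^ 2 := fun v hv =>
    (h v hv).imp id fun ⟨u, hu, w, hw, a, b, c, e⟩ => by
      have := h1 v hv
      rw [e] at this
      exact ⟨u, hu, w, hw, a, by nlinarith, by nlinarith, e⟩
  induction n with
  | zero =>
    have a0 : ∀ v ∈ E, s v 0 ≤ 2 := fun v hv => by rcases h v hv with ⟨_, _, e, _⟩ | ⟨_, _, _, _, e, _⟩ <;> omega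
    have a1 : ∀ v ∈ E, s v 1 ≠ 3 ∧ (s v 0 ≤ 1 → s v 1 ≠ 2) := fun v hv => by
      rcases h' v hv with ⟨u, hu, -, e⟩ | ⟨u, hu, w, hw, a, b, c, e⟩
      · have := a0 u hu; rw [e]; interval_cases s u 0 <;> simp
      · simp [e, a, b, c]
    have a2 : ∀ v ∈ E, s v 2 ≤ 17 ∧ (s v 0 ≤ 1 → s v 2 ≤ 4 ∨ s v 2 = 16) := fun v hv => by
      have := h2 v hv
      rcases h' v hv with ⟨u, hu, -, e⟩ | ⟨u, hu, w, hw, a, b, c, e⟩ <;> rw [e] at this ⊢
      · have := h1 u hu; have := a1 u hu; interval_cases s u 1 <;> simp_all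
      · have := h1 u hu; have := h1 w hw; have := a1 u hu; have := a1 w hw
        interval_cases s u 1 <;> interval_cases s w 1 <;> simp_all
    intro v hv
    have : s v 3 ≤ 289 := by
      have := h3 v hv
      rcases h' v hv with ⟨u, hu, -, e⟩ | ⟨u, hu, w, hw, a, b, c, e⟩ <;> rw [e] at this ⊢
      · nlinarith [(a2 u hu).1]
      · rcases (a2 u hu).2 b.le with f | f <;> rcases (a2 w hw).2 c.le with g | g <;> nlinarith
    have : (s v 3 : ℝ) ≤ 289 := mod_cast this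
    simp; constructor <;> intros <;> linarith
  | succ n ih =>
    intro v hv
    rw [pow_succ, pow_mul]
    rcases h' v hv with ⟨u, hu, -, e⟩ | ⟨u, hu, w, hw, a, b, c, e⟩ <;> rw [show n + 1 + 3 = n + 3 + 1 by ring, e] <;>
      push_cast
    · have := pow_le_pow_left₀ (by positivity) (ih u hu).1 2
      constructor <;> intros <;> nlinarith [sq_nonneg (s u (n + 3) : ℝ)]
    · have := pow_le_pow_left₀ (by positivity) ((ih u hu).2 b.le) 2
      have := pow_le_pow_left₀ (by positivity) ((ih w hw).2 c.le) 2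
      exact ⟨by nlinarith [sq_nonneg (s u (n + 3) : ℝ), sq_nonneg (s w (n + 3) : ℝ)], by omega⟩

lemma ent (hd : 2 ≤ d) {h : ℝ} (hh : h ∈ Ent d) : ∃ (V : Type) (E : Set V) (s : V → ℕ → ℕ),
    ((∀ v ∈ E, s v 0 ≤ 2) → Br d E s) ∧
    (∀ v ∈ E, ∀ n (y : ℕ), 0 < y → y ≤ s v n → Real.log y / d ^ n ≤ h * d / (d - 1)) ∧
    ∀ n (y : ℝ), 1 ≤ y → (∀ v ∈ E, ∀ i, s v (n + i) ≤ y ^ d ^ i) → h * d / (d - 1) ≤ Real.log y / d ^ n := by
  obtain ⟨k, M, ⟨t, ht⟩, l⟩ := hh
  obtain ⟨E, e1, e2, m, e3⟩ := core d M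
  have d1 : (2 : ℝ) ≤ d := mod_cast hd
  have d0 : (d : ℝ) - 1 ≠ 0 := by linarith
  have z : Tendsto (fun n : ℕ => ((d : ℝ) ^ n)⁻¹) atTop (𝓝 0) :=
    tendsto_inv_atTop_zero.comp (tendsto_pow_atTop_atTop_of_one_lt (by linarith))
  have X : Tendsto (fun n => Real.log (p d M n) / d ^ n) atTop (𝓝 (h * d / (d - 1))) := by
    have := l.mul ((z.const_sub (d : ℝ)).div_const (d - 1))
    rw [sub_zero, ← mul_div_assoc] at this
    refine this.congr fun n => ?_
    have : (d : ℝ) ^ (n + 1) - 1 ≠ 0 := sub_ne_zero.2 (one_lt_pow₀ (by linarith) (by simp)).ne'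
    field_simp; ring
  refine ⟨_, E, s d M, br d M hd e1, fun v hv n y y0 hy => ?_, fun n y y1 hy => ?_⟩
  · refine ge_of_tendsto' ((tendsto_add_atTop_iff_nat (n + 1)).2 X) fun j => ?_
    obtain ⟨u, -, hu⟩ : ∃ u ∈ E, y ^ d ^ (j + 1) ≤ q d M u (j + (n + 1)) := by
      induction j with
      | zero => exact ⟨v, hv, by simpa [q_succ] using Nat.pow_le_pow_left hy d⟩
      | succ j ih =>
        obtain ⟨u, a, b⟩ := ih
        obtain ⟨w, c, e⟩ := e2 u a
        refine ⟨w, c, ?_⟩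
        rw [add_right_comm j 1 (n + 1), q_succ, pow_succ, pow_mul]
        exact Nat.pow_le_pow_left (b.trans (le_trans (by simp [e]) (Finset.single_le_sum
          (f := fun u => if M w u then q d M u (j + (n + 1)) else 0) (fun _ _ => by simp) (Finset.mem_univ u)))) d
    have := hu.trans (Finset.single_le_sum (f := fun u => q d M u (j + (n + 1))) (fun _ _ => by simp) (Finset.mem_univ u))
    rw [← p_eq] at this
    have := Real.log_le_log (by positivity) (show (y : ℝ) ^ d ^ (j + 1) ≤ p d M (j + (n + 1)) from mod_cast this)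
    rw [Real.log_pow] at this
    rw [div_le_div_iff₀ (by positivity) (by positivity)]
    exact le_trans (le_of_eq (by push_cast; ring)) (mul_le_mul_of_nonneg_right this (by positivity))
  · have k1 : (1 : ℝ) ≤ k := mod_cast (t []).pos
    refine le_of_tendsto_of_tendsto' ((tendsto_add_atTop_iff_nat (n + 1 + m)).2 X) (by simpa using
      (((tendsto_add_atTop_iff_nat (n + 1)).2 z).const_mul (Real.log (k ^ 2))).const_add (Real.log y / d ^ n)) fun i => ?_
    have := e3 (i + (n + 1)) ⌊y ^ d ^ (i + 1)⌋₊ hd fun v hv => Nat.le_floor (by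
      rw [← add_assoc, q_succ, add_comm i, pow_succ, pow_mul]; push_cast
      exact pow_le_pow_left₀ (by positivity) (hy v hv i) d)
    have a : (p d M (i + (n + 1) + m) : ℝ) ≤ (k ^ 2 * y ^ d ^ (i + 1)) ^ d ^ m :=
      (Nat.cast_le.2 this).trans (by push_cast; gcongr; exact Nat.floor_le (by positivity))
    have := Real.log_le_log (Nat.cast_pos.2 ((ncard_pos (toFinite _)).2 (Nonempty.image _ ⟨t, ht⟩))) a
    rw [Real.log_pow, Real.log_mul (by positivity) (by positivity), Real.log_pow y] at this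
    rw [← add_assoc, div_le_iff₀ (by positivity)]
    exact this.trans (le_of_eq (by push_cast; field_simp; ring))

theorem result (d : ℕ) (hd : 2 ≤ d) : ∃ a b : ℝ, (d - 1) / d * Real.log 2 ≤ a ∧ a < b ∧ b ≤ (d - 1) * Real.log 2 ∧
    ∀ h ∈ Ent d, h ∉ Ioo a b := by
  have d1 : (2 : ℝ) ≤ d := mod_cast hd
  have l2 := Real.log_pos (one_lt_two (α := ℝ))
  suffices ∃ a b : ℝ, Real.log 2 ≤ a ∧ a < b ∧ b ≤ d * Real.log 2 ∧ ∀ h ∈ Ent d, h * d / (d - 1) < b →
      h * d / (d - 1) ≤ a by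
    obtain ⟨a, b, h1, h2, h3, h4⟩ := this
    have c : 0 < ((d : ℝ) - 1) / d := div_pos (by linarith) (by linarith)
    refine ⟨(d - 1) / d * a, (d - 1) / d * b, by gcongr, by gcongr, ?_, fun h hh ⟨x, y⟩ => ?_⟩
    · exact (mul_le_mul_of_nonneg_left h3 c.le).trans_eq (by field_simp)
    · rw [div_mul_eq_mul_div, div_lt_iff₀ (by linarith)] at x
      rw [div_mul_eq_mul_div, lt_div_iff₀ (by linarith)] at y
      have := h4 h hh (by rw [div_lt_iff₀ (by linarith)]; linarith)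
      rw [div_le_iff₀ (by linarith)] at this; linarith
  have L : ∀ a b : ℝ, 0 < a → a ≤ b → Real.log a ≤ Real.log b := fun a b => Real.log_le_log
  rcases hd.eq_or_lt with rfl | h3
  · have a := L (2 ^ 8) 477 (by norm_num) (by norm_num)
    have b := Real.log_lt_log (x := 477) (y := 2 ^ 9) (by norm_num) (by norm_num)
    have c0 := L (2 ^ 9) (3 ^ 8) (by norm_num) (by norm_num)
    have c1 := L (2 ^ 9) (5 ^ 4) (by norm_num) (by norm_num)
    have c2 := L (2 ^ 9) (23 ^ 2) (by norm_num) (by norm_num)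
    have c3 := L (2 ^ 9) 512 (by norm_num) (by norm_num)
    simp only [Real.log_pow] at a b c0 c1 c2 c3
    push_cast at *
    refine ⟨Real.log 477 / 2 ^ 3, 9 / 8 * Real.log 2, by linarith, by linarith, by linarith, fun h hh e => ?_⟩
    obtain ⟨V, E, s, a, b, c⟩ := ent 2 le_rfl hh
    push_cast at *
    refine c 3 477 (by norm_num) fun v hv i => ?_
    have := (two (a fun v hv => not_lt.1 fun g => by have := b v hv 0 3 (by simp) g; push_cast at this; linarith)
      (fun v hv => not_le.1 fun g => by have := b v hv 1 5 (by simp) g; push_cast at this; linarith)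
      (fun v hv => not_le.1 fun g => by have := b v hv 2 23 (by simp) g; push_cast at this; linarith)
      (fun v hv => not_le.1 fun g => by have := b v hv 3 512 (by simp) g; push_cast at this; linarith) i v hv).1
    rw [add_comm]; linarith [show (0 : ℝ) ≤ s v (i + 3) by positivity]
  · have p1 : (2 : ℝ) ^ 3 ≤ 2 ^ d := pow_le_pow_right₀ one_le_two h3
    have a := L (2 ^ d) (3 / 2 * (2 ^ d + 1)) (by positivity) (by linarith)
    have b := Real.log_lt_log (x := 3 / 2 * (2 ^ d + 1)) (y := 2 ^ (d + 1)) (by positivity) (by rw [pow_succ]; linarith)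
    have c0 := L (2 ^ 3) (3 ^ 2) (by norm_num) (by norm_num)
    simp only [Real.log_pow] at a b c0
    push_cast at *
    refine ⟨Real.log (3 / 2 * (2 ^ d + 1)) / d ^ 1, (d + 1) * Real.log 2 / d ^ 1, ?_, by gcongr, ?_, fun h hh e => ?_⟩
    · rw [le_div_iff₀ (by positivity)]; linarith
    · rw [div_le_iff₀ (by positivity)]; nlinarith [mul_nonneg l2.le (show (0 : ℝ) ≤ d * d - d - 1 by nlinarith)]
    obtain ⟨V, E, s, a, b, c⟩ := ent d hd hh
    refine c 1 _ (by linarith) fun v hv i => ?_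
    have := big h3 (a fun v hv => not_lt.1 fun g => by
        have := (b v hv 0 3 (by simp) g).trans_lt e
        rw [lt_div_iff₀ (by positivity)] at this; simp at this
        nlinarith [mul_le_mul_of_nonneg_left c0 (show (0 : ℝ) ≤ d by linarith), mul_le_mul_of_nonneg_left d1 l2.le])
      (fun v hv => not_le.1 fun g => by simpa using (b v hv 1 _ (by simp) g).trans_lt e) i v hv
    rw [add_comm]; linarith [show (0 : ℝ) ≤ s v (i + 1) by positivity]

end Pool.Agent.Results.MP_256cd6_an.Gap
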